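import Mathlib
import Pool.Agent.LeoD.QuarStmts

/-!
# Squad LEOD: module IDB, the number of ideals of bounded norm in a real quadratic field
-/

set_option autoImplicit false

open NumberField NumberField.InfinitePlace NumberField.mixedEmbedding IsDedekindDomain Module
  MeasureTheory Filter Topology
open Pool.Agent.Helper85_Leo Pool.Agent.LeoK Pool.Agent.LeoG Pool.Agent.LeoC

open scoped Classical

namespace Pool.Agent.LeoD.H48

/-- `∑ (e + 1) / 2 ^ e ≤ 4` -/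
theorem sum_le_four (M : ℕ) : ∑ e ∈ Finset.range M, ((e : ℝ) + 1) / 2 ^ e ≤ 4 := by
  have h : ∀ M : ℕ, ∑ e ∈ Finset.range M, ((e : ℝ) + 1) / 2 ^ e = 4 - (2 * M + 4) / 2 ^ M := by
    intro M
    induction M with
    | zero => norm_num
    | succ M ih =>
      rw [Finset.sum_range_succ, ih]
      push_cast
      field_simp
      ring
  rw [h M]
  have : (0 : ℝ) ≤ (2 * M + 4) / 2 ^ M := by positivity
  linarith

/-- IDB -/
theorem idb (hidq : IdqStmt) (hjac : JacStmt) : IdbStmt := by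
  obtain ⟨C, hC, hJ⟩ := hjac
  refine ⟨4 * C, by positivity, ?_⟩
  intro k _ _ d s hk hd hd1 hs Y hY
  obtain ⟨-, h2, h3⟩ := hidq k d s hk hd hd1 hs
  have hsub : {I : Ideal (𝓞 k) | I ≠ ⊥ ∧ (Ideal.absNorm I : ℝ) ≤ Y} ⊆
      ⋃ e ∈ Finset.range (⌊Y⌋₊ + 1), ⋃ n ∈ (Finset.Icc 1 ⌊Y / 2 ^ e⌋₊).filter Odd,
        {I : Ideal (𝓞 k) | Ideal.absNorm I = 2 ^ e * n} := by
    intro I hI
    obtain ⟨hI0, hIY⟩ := hI
    have hN : Ideal.absNorm I ≠ 0 := by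
      rw [Ne, Ideal.absNorm_eq_zero_iff]
      exact hI0
    obtain ⟨e, n, hn, hen⟩ := Nat.exists_eq_two_pow_mul_odd hN
    have hNM : Ideal.absNorm I ≤ ⌊Y⌋₊ := Nat.le_floor hIY
    have hn1 : 1 ≤ n := hn.pos
    have he : e < ⌊Y⌋₊ + 1 := by
      have h4 : e < 2 ^ e := Nat.lt_two_pow_self
      have h5 : 2 ^ e ≤ 2 ^ e * n := Nat.le_mul_of_pos_right _ hn1
      omega
    have hnY : n ≤ ⌊Y / 2 ^ e⌋₊ := by
      apply Nat.le_floor
      rw [le_div_iff₀ (by positivity)]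
      rw [hen] at hIY
      push_cast at hIY
      linarith
    simp only [Set.mem_iUnion]
    exact ⟨e, Finset.mem_range.2 he, n, Finset.mem_filter.2 ⟨Finset.mem_Icc.2 ⟨hn1, hnY⟩, hn⟩, hen⟩
  have hfin : (⋃ e ∈ Finset.range (⌊Y⌋₊ + 1), ⋃ n ∈ (Finset.Icc 1 ⌊Y / 2 ^ e⌋₊).filter Odd,
        {I : Ideal (𝓞 k) | Ideal.absNorm I = 2 ^ e * n}).Finite :=
    (Finset.finite_toSet _).biUnion fun e _ => (Finset.finite_toSet _).biUnion fun n _ =>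
      Ideal.finite_setOfPred_absNorm_eq _
  refine ⟨hfin.subset hsub, ?_⟩
  have hlog : 0 ≤ Real.log d := Real.log_natCast_nonneg d
  have hinner : ∀ e : ℕ, ((⋃ n ∈ (Finset.Icc 1 ⌊Y / 2 ^ e⌋₊).filter Odd,
        {I : Ideal (𝓞 k) | Ideal.absNorm I = 2 ^ e * n}).ncard : ℝ) ≤
      (((e : ℝ) + 1) / 2 ^ e) * (C * Y * (1 + Real.log d)) := by
    intro e
    have h4 : ((⋃ n ∈ (Finset.Icc 1 ⌊Y / 2 ^ e⌋₊).filter Odd,
        {I : Ideal (𝓞 k) | Ideal.absNorm I = 2 ^ e * n}).ncard : ℤ) ≤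
        ((e : ℤ) + 1) * ∑ n ∈ (Finset.Icc 1 ⌊Y / 2 ^ e⌋₊).filter Odd,
          ∑ a ∈ n.divisors, jacobiSym d a := by
      rw [Finset.mul_sum]
      refine (Int.ofNat_le.2 (Finset.set_ncard_biUnion_le _ _)).trans ?_
      rw [Nat.cast_sum]
      refine Finset.sum_le_sum fun n hn => ?_
      have ho : Odd n := (Finset.mem_filter.1 hn).2
      have h5 := Int.ofNat_le.2 (h2 e n ho)
      refine h5.trans ?_
      rw [Int.natCast_mul, Nat.cast_add, Nat.cast_one]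
      exact mul_le_mul_of_nonneg_left (h3 n ho) (by positivity)
    have h6 : ((⋃ n ∈ (Finset.Icc 1 ⌊Y / 2 ^ e⌋₊).filter Odd,
        {I : Ideal (𝓞 k) | Ideal.absNorm I = 2 ^ e * n}).ncard : ℝ) ≤
        ((e : ℝ) + 1) * ((∑ n ∈ (Finset.Icc 1 ⌊Y / 2 ^ e⌋₊).filter Odd,
          ∑ a ∈ n.divisors, jacobiSym d a : ℤ) : ℝ) := by
      exact_mod_cast h4
    refine h6.trans ?_
    by_cases hYe : 1 ≤ Y / 2 ^ e
    · have h7 := hJ d hd hd1 (Y / 2 ^ e) hYe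
      have h8 := mul_le_mul_of_nonneg_left h7 (show (0 : ℝ) ≤ (e : ℝ) + 1 by positivity)
      refine h8.trans (le_of_eq ?_)
      ring
    · have h9 : ⌊Y / 2 ^ e⌋₊ = 0 := Nat.floor_eq_zero.2 (not_le.1 hYe)
      rw [h9, Finset.Icc_eq_empty (by decide), Finset.filter_empty, Finset.sum_empty, Int.cast_zero,
        mul_zero]
      positivity
  calc ({I : Ideal (𝓞 k) | I ≠ ⊥ ∧ (Ideal.absNorm I : ℝ) ≤ Y}.ncard : ℝ)
      ≤ ((⋃ e ∈ Finset.range (⌊Y⌋₊ + 1), ⋃ n ∈ (Finset.Icc 1 ⌊Y / 2 ^ e⌋₊).filter Odd,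
        {I : Ideal (𝓞 k) | Ideal.absNorm I = 2 ^ e * n}).ncard : ℝ) :=
        Nat.cast_le.2 (Set.ncard_le_ncard hsub hfin)
    _ ≤ ((∑ e ∈ Finset.range (⌊Y⌋₊ + 1), (⋃ n ∈ (Finset.Icc 1 ⌊Y / 2 ^ e⌋₊).filter Odd,
        {I : Ideal (𝓞 k) | Ideal.absNorm I = 2 ^ e * n}).ncard : ℕ) : ℝ) :=
        Nat.cast_le.2 (Finset.set_ncard_biUnion_le _ _)
    _ ≤ ∑ e ∈ Finset.range (⌊Y⌋₊ + 1), (((e : ℝ) + 1) / 2 ^ e) * (C * Y * (1 + Real.log d)) := by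
        rw [Nat.cast_sum]
        exact Finset.sum_le_sum fun e _ => hinner e
    _ = (∑ e ∈ Finset.range (⌊Y⌋₊ + 1), ((e : ℝ) + 1) / 2 ^ e) * (C * Y * (1 + Real.log d)) := by
        rw [Finset.sum_mul]
    _ ≤ 4 * (C * Y * (1 + Real.log d)) :=
        mul_le_mul_of_nonneg_right (sum_le_four _) (by positivity)
    _ = 4 * C * Y * (1 + Real.log d) := by ring

end Pool.Agent.LeoD.H48
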