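import Mathlib
import Pool.Agent.Helper85_Leo.Units

/-!
# LAY (squad LEOD), part A: relations between the elements of a cyclic module
-/

set_option autoImplicit false

open Polynomial Filter Topology

namespace Pool.Agent.LeoD.H48

section

variable {A : Type*} [AddCommGroup A] (S : Module.End ℤ A) (D : ℕ → Submodule ℤ A) (η : A)

/-- The polynomial `P` over `ℤ_3` is a relation for `η`: it is a limit of polynomials `Q` over `ℤ`
with `Q(S) η` tending to 0. -/
def Rel (P : (PadicInt 3)[X]) : Prop :=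
  ∀ N M : ℕ, ∃ Q : ℤ[X], C ((3 : PadicInt 3) ^ M) ∣ P - Q.map (Int.castRingHom (PadicInt 3)) ∧
    aeval S Q η ∈ D N

variable {S D η}

theorem Rel.add {P Q : (PadicInt 3)[X]} (hP : Rel S D η P) (hQ : Rel S D η Q) :
    Rel S D η (P + Q) := by
  intro N M
  obtain ⟨P', h1, h2⟩ := hP N M
  obtain ⟨Q', h3, h4⟩ := hQ N M
  refine ⟨P' + Q', ?_, ?_⟩
  · have : P + Q - (P' + Q').map (Int.castRingHom (PadicInt 3)) =
      (P - P'.map (Int.castRingHom (PadicInt 3))) + (Q - Q'.map (Int.castRingHom (PadicInt 3))) := by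
      rw [Polynomial.map_add]
      ring
    rw [this]
    exact dvd_add h1 h3
  · rw [map_add, LinearMap.add_apply]
    exact add_mem h2 h4

theorem approx (P : (PadicInt 3)[X]) (M : ℕ) :
    ∃ Q : ℤ[X], C ((3 : PadicInt 3) ^ M) ∣ P - Q.map (Int.castRingHom (PadicInt 3)) := by
  induction P using Polynomial.induction_on' with
  | add p q hp hq =>
    obtain ⟨p', hp'⟩ := hp
    obtain ⟨q', hq'⟩ := hq
    refine ⟨p' + q', ?_⟩
    have : p + q - (p' + q').map (Int.castRingHom (PadicInt 3)) =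
      (p - p'.map (Int.castRingHom (PadicInt 3))) + (q - q'.map (Int.castRingHom (PadicInt 3))) := by
      rw [Polynomial.map_add]
      ring
    rw [this]
    exact dvd_add hp' hq'
  | monomial n a =>
    refine ⟨monomial n ((PadicInt.appr a M : ℕ) : ℤ), ?_⟩
    have h1 := PadicInt.appr_spec M a
    rw [Ideal.mem_span_singleton] at h1
    obtain ⟨c, hc⟩ := h1
    rw [map_monomial, ← map_sub (monomial n)]
    have h2 : a - (Int.castRingHom (PadicInt 3)) ((PadicInt.appr a M : ℕ) : ℤ) =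
        (3 : PadicInt 3) ^ M * c := by
      simpa using hc
    rw [h2, ← C_mul_monomial]
    exact dvd_mul_right _ _

theorem aeval_mem (hS : ∀ N x, x ∈ D N → S x ∈ D N) (Q : ℤ[X]) {N : ℕ} {x : A} (hx : x ∈ D N) :
    aeval S Q x ∈ D N := by
  have h1 : ∀ i : ℕ, (S ^ i) x ∈ D N := by
    intro i
    induction i with
    | zero => simpa using hx
    | succ i ih =>
      rw [pow_succ', Module.End.mul_apply]
      exact hS _ _ ih
  rw [aeval_eq_sum_range, LinearMap.sum_apply]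
  refine sum_mem fun i _ => ?_
  rw [LinearMap.smul_apply]
  exact (D N).smul_mem _ (h1 i)

theorem Rel.mul (hS : ∀ N x, x ∈ D N → S x ∈ D N) {P : (PadicInt 3)[X]} (hP : Rel S D η P)
    (Q : (PadicInt 3)[X]) : Rel S D η (Q * P) := by
  intro N M
  obtain ⟨P', h1, h2⟩ := hP N M
  obtain ⟨Q', h3⟩ := approx Q M
  refine ⟨Q' * P', ?_, ?_⟩
  · have : Q * P - (Q' * P').map (Int.castRingHom (PadicInt 3)) =
      Q * (P - P'.map (Int.castRingHom (PadicInt 3))) +
        P'.map (Int.castRingHom (PadicInt 3)) * (Q - Q'.map (Int.castRingHom (PadicInt 3))) := by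
      rw [Polynomial.map_mul]
      ring
    rw [this]
    exact dvd_add (h1.mul_left _) (h3.mul_left _)
  · rw [map_mul, Module.End.mul_apply]
    exact aeval_mem hS Q' h2

theorem rel_of_zero {Q : ℤ[X]} (hQ : aeval S Q η = 0) :
    Rel S D η (Q.map (Int.castRingHom (PadicInt 3))) := by
  intro N M
  refine ⟨Q, by rw [sub_self]; exact dvd_zero _, ?_⟩
  rw [hQ]
  exact zero_mem _

theorem Rel.final (hS : ∀ N x, x ∈ D N → S x ∈ D N) (hD : ∀ x, (∀ N, x ∈ D N) → x = 0)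
    (hη : ∀ N : ℕ, ∃ M : ℕ, (3 : ℤ) ^ M • η ∈ D N) (Q : ℤ[X])
    (h : Rel S D η (Q.map (Int.castRingHom (PadicInt 3)))) : aeval S Q η = 0 := by
  apply hD
  intro N
  obtain ⟨M, hM⟩ := hη N
  obtain ⟨Q', h1, h2⟩ := h N M
  have h3 : C ((3 : ℤ) ^ M) ∣ Q - Q' := by
    rw [C_dvd_iff_dvd_coeff]
    intro i
    rw [← Polynomial.map_sub] at h1
    have h4 := (C_dvd_iff_dvd_coeff _ _).1 h1 i
    rw [coeff_map] at h4
    have h5 := (PadicInt.pow_p_dvd_int_iff (p := 3) M ((Q - Q').coeff i)).1 (by simpa using h4)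
    simpa using h5
  obtain ⟨R, hR⟩ := h3
  have h4 : Q = Q' + R * C ((3 : ℤ) ^ M) := by
    rw [mul_comm, ← hR]
    ring
  rw [h4, map_add, LinearMap.add_apply, map_mul, Module.End.mul_apply]
  refine add_mem h2 (aeval_mem hS R ?_)
  rw [aeval_C]
  exact hM

theorem map_C3 (K : ℕ) : (C ((3 : PadicInt 3) ^ K)).map (algebraMap (PadicInt 3) ℚ_[3]) =
    C ((3 : ℚ_[3]) ^ K) := by
  have h : algebraMap (PadicInt 3) ℚ_[3] ((3 : PadicInt 3) ^ K) = (3 : ℚ_[3]) ^ K := by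
    rw [map_pow, map_ofNat]
  rw [map_C, h]

theorem map_C3' (K : ℕ) : (C ((3 : ℤ) ^ K)).map (Int.castRingHom (PadicInt 3)) =
    C ((3 : PadicInt 3) ^ K) := by
  have h : (Int.castRingHom (PadicInt 3)) ((3 : ℤ) ^ K) = (3 : PadicInt 3) ^ K := by
    rw [map_pow, map_ofNat]
  rw [map_C, h]

/-- Clearing denominators. -/
theorem clear_denom (P : ℚ_[3][X]) : ∃ (K : ℕ) (Q : (PadicInt 3)[X]),
    C ((3 : ℚ_[3]) ^ K) * P = Q.map (algebraMap (PadicInt 3) ℚ_[3]) := by
  induction P using Polynomial.induction_on' with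
  | add p q hp hq =>
    obtain ⟨K, p', hp'⟩ := hp
    obtain ⟨L, q', hq'⟩ := hq
    refine ⟨K + L, C ((3 : PadicInt 3) ^ L) * p' + C ((3 : PadicInt 3) ^ K) * q', ?_⟩
    rw [Polynomial.map_add, Polynomial.map_mul, Polynomial.map_mul, ← hp', ← hq', map_C3, map_C3,
      pow_add, C_mul]
    ring
  | monomial n a =>
    obtain ⟨K, hK⟩ := pow_unbounded_of_one_lt ‖a‖ (by norm_num : (1 : ℝ) < 3)
    have h1 : ‖(3 : ℚ_[3]) ^ K * a‖ ≤ 1 := by
      rw [norm_mul, norm_pow]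
      have h2 : ‖(3 : ℚ_[3])‖ = 3⁻¹ := by
        have := Padic.norm_p (p := 3)
        simpa using this
      rw [h2, inv_pow]
      have h3 : (0 : ℝ) < 3 ^ K := by positivity
      rw [inv_mul_le_iff₀ h3, mul_one]
      exact hK.le
    obtain ⟨b, hb⟩ : ∃ b : PadicInt 3, algebraMap (PadicInt 3) ℚ_[3] b = (3 : ℚ_[3]) ^ K * a :=
      ⟨⟨(3 : ℚ_[3]) ^ K * a, h1⟩, rfl⟩
    refine ⟨K, monomial n b, ?_⟩
    rw [C_mul_monomial, map_monomial, hb]

theorem Rel.dvd (hS : ∀ N x, x ∈ D N → S x ∈ D N) (hD : ∀ x, (∀ N, x ∈ D N) → x = 0)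
    (hη : ∀ N : ℕ, ∃ M : ℕ, (3 : ℤ) ^ M • η ∈ D N) {ι : Type*} [DecidableEq ι] (s : Finset ι)
    (f : ι → ℤ[X]) (hmon : ∀ i ∈ s, (f i).Monic)
    (hirr : ∀ i ∈ s, Irreducible ((f i).map (Int.castRingHom ℚ_[3])))
    (hcop : (s : Set ι).Pairwise (Function.onFun IsCoprime
      fun i => (f i).map (Int.castRingHom ℚ_[3])))
    (hT : aeval S (∏ i ∈ s, f i) η = 0)
    (hT' : ∀ Q : ℤ[X], Q ≠ 0 → Q.natDegree < (∏ i ∈ s, f i).natDegree → ∀ k : ℤ, k ≠ 0 →
      k • aeval S Q η ≠ 0) {P : (PadicInt 3)[X]} (hP : Rel S D η P) :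
    (∏ i ∈ s, f i).map (Int.castRingHom ℚ_[3]) ∣ P.map (algebraMap (PadicInt 3) ℚ_[3]) := by
  rw [Polynomial.map_prod]
  refine Finset.prod_dvd_of_coprime hcop fun i hi => ?_
  by_contra hnd
  have hco := (hirr i hi).coprime_iff_not_dvd.2 hnd
  obtain ⟨b, a, hab⟩ := hco
  obtain ⟨K, a', ha⟩ := clear_denom a
  obtain ⟨L, b', hb⟩ := clear_denom b
  have hcomp : ∀ Q : ℤ[X], (Q.map (Int.castRingHom (PadicInt 3))).map
      (algebraMap (PadicInt 3) ℚ_[3]) = Q.map (Int.castRingHom ℚ_[3]) := by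
    intro Q
    rw [Polynomial.map_map]
    congr 1
  have h1 : C ((3 : PadicInt 3) ^ (K + L)) = (C ((3 : PadicInt 3) ^ L) * a') * P +
      (C ((3 : PadicInt 3) ^ K) * b') * (f i).map (Int.castRingHom (PadicInt 3)) := by
    apply map_injective (algebraMap (PadicInt 3) ℚ_[3]) (FaithfulSMul.algebraMap_injective _ _)
    rw [Polynomial.map_add, Polynomial.map_mul, Polynomial.map_mul, Polynomial.map_mul,
      Polynomial.map_mul, ← ha, ← hb, hcomp, map_C3, map_C3, map_C3]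
    have h2 : C ((3 : ℚ_[3]) ^ (K + L)) = C ((3 : ℚ_[3]) ^ (K + L)) *
        (b * (f i).map (Int.castRingHom ℚ_[3]) + a * P.map (algebraMap (PadicInt 3) ℚ_[3])) := by
      rw [hab, mul_one]
    rw [h2, pow_add, C_mul]
    ring
  obtain ⟨R, hR⟩ : ∃ R : ℤ[X], R = ∏ j ∈ s.erase i, f j := ⟨_, rfl⟩
  have hfR : f i * R = ∏ j ∈ s, f j := by rw [hR]; exact Finset.mul_prod_erase s f hi
  have hRmon : R.Monic := by
    rw [hR]
    exact monic_prod_of_monic _ _ fun j hj => hmon j (Finset.mem_of_mem_erase hj)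
  have h4 : Rel S D η ((C ((3 : ℤ) ^ (K + L)) * R).map (Int.castRingHom (PadicInt 3))) := by
    have h5 : (C ((3 : ℤ) ^ (K + L)) * R).map (Int.castRingHom (PadicInt 3)) =
        (C ((3 : PadicInt 3) ^ L) * a' * R.map (Int.castRingHom (PadicInt 3))) * P +
        (C ((3 : PadicInt 3) ^ K) * b') *
          (∏ j ∈ s, f j).map (Int.castRingHom (PadicInt 3)) := by
      rw [← hfR, Polynomial.map_mul, Polynomial.map_mul, map_C3', h1]
      ring
    rw [h5]
    exact (hP.mul hS _).add ((rel_of_zero hT).mul hS _)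
  have h5 := h4.final hS hD hη
  rw [map_mul, Module.End.mul_apply, aeval_C] at h5
  refine hT' R hRmon.ne_zero ?_ ((3 : ℤ) ^ (K + L)) (by positivity) h5
  rw [← hfR, (hmon i hi).natDegree_mul hRmon]
  have h6 := (hirr i hi).natDegree_pos
  rw [(hmon i hi).natDegree_map] at h6
  omega

/-- The independence of the elements `ε i` over `ℤ_3`. -/
theorem core (hS : ∀ N x, x ∈ D N → S x ∈ D N) (hD : ∀ x, (∀ N, x ∈ D N) → x = 0)
    (hη : ∀ N : ℕ, ∃ M : ℕ, (3 : ℤ) ^ M • η ∈ D N) {ι : Type*} [DecidableEq ι] (s : Finset ι)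
    (f : ι → ℤ[X]) (hmon : ∀ i ∈ s, (f i).Monic)
    (hirr : ∀ i ∈ s, Irreducible ((f i).map (Int.castRingHom ℚ_[3])))
    (hcop : (s : Set ι).Pairwise (Function.onFun IsCoprime
      fun i => (f i).map (Int.castRingHom ℚ_[3])))
    (hT : aeval S (∏ i ∈ s, f i) η = 0)
    (hT' : ∀ Q : ℤ[X], Q ≠ 0 → Q.natDegree < (∏ i ∈ s, f i).natDegree → ∀ k : ℤ, k ≠ 0 →
      k • aeval S Q η ≠ 0) {n : ℕ} (ε : Fin n → A)
    (hε : ∀ c : Fin n → ℤ, ∑ i, c i • ε i = 0 → c = 0)
    (hN : ∀ i, ∃ (k : ℤ) (Q : ℤ[X]), k ≠ 0 ∧ k • ε i = aeval S Q η)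
    (a : Fin n → PadicInt 3) (m : ℕ → Fin n → ℤ)
    (hm : ∀ i, Tendsto (fun k => ((m k i : ℤ) : PadicInt 3)) atTop (𝓝 (a i)))
    (hd : ∀ N, ∀ᶠ k in atTop, ∑ i, m k i • ε i ∈ D N) : a = 0 := by
  classical
  obtain ⟨T, hTT⟩ : ∃ T : ℤ[X], T = ∏ i ∈ s, f i := ⟨_, rfl⟩
  have hTmon : T.Monic := by
    rw [hTT]
    exact monic_prod_of_monic _ _ fun j hj => hmon j hj
  choose k Q hk hkQ using hN
  -- common multiple
  obtain ⟨N₀, hN₀⟩ : ∃ N₀ : ℤ, N₀ = ∏ i, k i := ⟨_, rfl⟩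
  have hN₀0 : N₀ ≠ 0 := by rw [hN₀]; exact Finset.prod_ne_zero_iff.2 fun i _ => hk i
  have hQ' : ∀ i, ∃ Q' : ℤ[X], N₀ • ε i = aeval S Q' η := by
    intro i
    refine ⟨C (∏ j ∈ Finset.univ.erase i, k j) * Q i, ?_⟩
    rw [map_mul, Module.End.mul_apply, aeval_C, ← hkQ i]
    rw [hN₀, ← Finset.mul_prod_erase Finset.univ k (Finset.mem_univ i), mul_comm, mul_smul]
    rfl
  choose Q' hQ' using hQ'
  -- the relation
  have hrel : Rel S D η (∑ i, C (a i) * (Q' i).map (Int.castRingHom (PadicInt 3))) := by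
    intro N M
    have h1 : ∀ i, ∀ᶠ l in atTop, (3 : PadicInt 3) ^ M ∣ a i - ((m l i : ℤ) : PadicInt 3) := by
      intro i
      have h2 := hm i
      rw [Metric.tendsto_atTop] at h2
      obtain ⟨l₀, hl₀⟩ := h2 ((3 : ℝ) ^ (-(M : ℤ))) (by positivity)
      filter_upwards [eventually_ge_atTop l₀] with l hl
      have h3 := hl₀ l hl
      rw [dist_comm, dist_eq_norm] at h3
      have h4 := (PadicInt.norm_le_pow_iff_mem_span_pow (p := 3) (a i - ((m l i : ℤ) : PadicInt 3))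
        M).1 (by exact_mod_cast h3.le)
      rw [Ideal.mem_span_singleton] at h4
      exact_mod_cast h4
    obtain ⟨l, hl1, hl2⟩ := ((eventually_all.2 h1).and (hd N)).exists
    refine ⟨∑ i, C (m l i) * Q' i, ?_, ?_⟩
    · rw [Polynomial.map_sum, ← Finset.sum_sub_distrib]
      refine Finset.dvd_sum fun i _ => ?_
      rw [Polynomial.map_mul, map_C, ← sub_mul, ← C_sub]
      refine Dvd.dvd.mul_right ?_ _
      exact (C.map_dvd (hl1 i))
    · rw [map_sum, LinearMap.sum_apply]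
      have h3 : ∑ i, (aeval S (C (m l i) * Q' i)) η = N₀ • ∑ i, m l i • ε i := by
        rw [Finset.smul_sum]
        refine Finset.sum_congr rfl fun i _ => ?_
        rw [map_mul, Module.End.mul_apply, aeval_C, ← hQ' i, smul_comm]
        rfl
      rw [h3]
      exact (D N).smul_mem _ hl2
  have hdvd := hrel.dvd hS hD hη s f hmon hirr hcop hT hT'
  rw [← hTT] at hdvd hT hT'
  by_contra hne
  obtain ⟨j₀, hj₀⟩ := Function.ne_iff.1 hne
  have hcomp : ∀ Q : ℤ[X], (Q.map (Int.castRingHom (PadicInt 3))).map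
      (algebraMap (PadicInt 3) ℚ_[3]) = Q.map (Int.castRingHom ℚ_[3]) := by
    intro Q
    rw [Polynomial.map_map]
    congr 1
  have h1 : ∀ t : ℕ, ∑ j, (((Q' j %ₘ T).coeff t : ℤ) : ℚ) • ((a j : PadicInt 3) : ℚ_[3]) = 0 := by
    intro t
    have hTm : (T.map (Int.castRingHom ℚ_[3])).Monic := hTmon.map _
    have h2 := (modByMonic_eq_zero_iff_dvd hTm).2 hdvd
    have h3 : (∑ i, C (a i) * (Q' i).map (Int.castRingHom (PadicInt 3))).map
        (algebraMap (PadicInt 3) ℚ_[3]) =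
        ∑ i, ((a i : PadicInt 3) : ℚ_[3]) • (Q' i).map (Int.castRingHom ℚ_[3]) := by
      rw [Polynomial.map_sum]
      refine Finset.sum_congr rfl fun i _ => ?_
      rw [Polynomial.map_mul, map_C, hcomp, smul_eq_C_mul]
      rfl
    rw [h3] at h2
    have h4 : (∑ i, ((a i : PadicInt 3) : ℚ_[3]) • (Q' i).map (Int.castRingHom ℚ_[3])) %ₘ
        (T.map (Int.castRingHom ℚ_[3])) =
        ∑ i, ((a i : PadicInt 3) : ℚ_[3]) • ((Q' i %ₘ T).map (Int.castRingHom ℚ_[3])) := by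
      have h5 := map_sum (modByMonicHom (T.map (Int.castRingHom ℚ_[3])))
        (fun i => ((a i : PadicInt 3) : ℚ_[3]) • (Q' i).map (Int.castRingHom ℚ_[3])) Finset.univ
      simp only [modByMonicHom_apply] at h5
      rw [h5]
      refine Finset.sum_congr rfl fun i _ => ?_
      rw [smul_modByMonic, map_modByMonic _ hTmon]
    rw [h4] at h2
    have h5 := congrArg (fun p => coeff p t) h2
    simp only [finsetSum_coeff, coeff_smul, coeff_map, coeff_zero, smul_eq_mul] at h5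
    rw [← h5]
    refine Finset.sum_congr rfl fun i _ => ?_
    rw [Algebra.smul_def, mul_comm]
    simp
  obtain ⟨z, hz, hz2⟩ := Pool.Agent.Helper85_Leo.exists_int_solution
    (fun j => ((a j : PadicInt 3) : ℚ_[3])) (fun j t => (Q' j %ₘ T).coeff t) h1 j₀ (by
      simpa using hj₀)
  have h2 : ∑ j, C (z j) * (Q' j %ₘ T) = 0 := by
    ext t
    rw [finsetSum_coeff, coeff_zero, ← hz2 t]
    refine Finset.sum_congr rfl fun j _ => ?_
    rw [coeff_C_mul, mul_comm]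
  have h3 : aeval S (∑ j, C (z j) * Q' j) η = 0 := by
    have h4 : ∑ j, C (z j) * Q' j = (∑ j, C (z j) * (Q' j /ₘ T)) * T := by
      have h5 : ∑ j, C (z j) * Q' j =
          ∑ j, C (z j) * (Q' j %ₘ T) + (∑ j, C (z j) * (Q' j /ₘ T)) * T := by
        rw [Finset.sum_mul, ← Finset.sum_add_distrib]
        refine Finset.sum_congr rfl fun j _ => ?_
        have h6 := modByMonic_add_div (Q' j) T
        calc C (z j) * Q' j = C (z j) * (Q' j %ₘ T + T * (Q' j /ₘ T)) := by rw [h6]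
          _ = _ := by ring
      rw [h5, h2, zero_add]
    rw [h4, map_mul, Module.End.mul_apply, hT, map_zero]
  have h4 : ∑ i, (N₀ * z i) • ε i = 0 := by
    rw [← h3, map_sum, LinearMap.sum_apply]
    refine Finset.sum_congr rfl fun i _ => ?_
    rw [map_mul, Module.End.mul_apply, aeval_C, ← hQ' i, mul_smul, smul_comm]
    rfl
  have h5 := congrFun (hε _ h4) j₀
  rcases mul_eq_zero.1 h5 with h6 | h6
  · exact hN₀0 h6
  · exact hz h6

end

end Pool.Agent.LeoD.H48
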