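import Mathlib

/-!
# LAY (squad LEOD), part C: cyclotomic polynomials over the field of 3-adic numbers
-/

set_option autoImplicit false

open Polynomial

namespace Pool.Agent.LeoD.H48

/-- The cyclotomic polynomial of order `p ^ (n + 1)` is irreducible over `ℚ_p`. -/
theorem irr_pow (p : ℕ) [hp : Fact p.Prime] (n : ℕ) :
    Irreducible (cyclotomic (p ^ (n + 1)) ℚ_[p]) := by
  have hE := cyclotomic_prime_pow_comp_X_add_one_isEisensteinAt p n
  have hprime : (Ideal.span {(p : PadicInt p)}).IsPrime :=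
    (Ideal.span_singleton_prime (PadicInt.prime_p (p := p)).ne_zero).2 PadicInt.prime_p
  have hmon : ((cyclotomic (p ^ (n + 1)) (PadicInt p)).comp (X + C 1)).Monic := by
    refine (cyclotomic.monic _ _).comp (monic_X_add_C 1) fun h => ?_
    rw [natDegree_X_add_C] at h
    exact zero_ne_one h.symm
  have hmap : (((cyclotomic (p ^ (n + 1)) ℤ).comp (X + 1)).map (Int.castRingHom (PadicInt p))) =
      (cyclotomic (p ^ (n + 1)) (PadicInt p)).comp (X + C 1) := by
    rw [Polynomial.map_comp, map_cyclotomic]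
    simp
  have hnd : ((cyclotomic (p ^ (n + 1)) (PadicInt p)).comp (X + C 1)).natDegree =
      ((cyclotomic (p ^ (n + 1)) ℤ).comp (X + 1)).natDegree := by
    rw [natDegree_comp, natDegree_comp, natDegree_cyclotomic, natDegree_cyclotomic,
      natDegree_X_add_C, show (X + 1 : ℤ[X]) = X + C 1 by simp, natDegree_X_add_C]
  have h1 : ((cyclotomic (p ^ (n + 1)) (PadicInt p)).comp (X + C 1)).IsEisensteinAt
      (Ideal.span {(p : PadicInt p)}) := by
    refine Monic.isEisensteinAt_of_mem_of_notMem hmon hprime.ne_top ?_ ?_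
    · intro k hk
      rw [hnd] at hk
      have h2 := hE.mem hk
      rw [← hmap, coeff_map]
      rw [Ideal.submodule_span_eq, Ideal.mem_span_singleton] at h2
      rw [Ideal.mem_span_singleton]
      obtain ⟨c, hc⟩ := h2
      refine ⟨(c : PadicInt p), ?_⟩
      rw [hc]
      simp
    · intro h2
      rw [coeff_zero_eq_eval_zero, eval_comp, Ideal.span_singleton_pow, Ideal.mem_span_singleton]
        at h2
      have h3 : eval (eval 0 (X + C 1)) (cyclotomic (p ^ (n + 1)) (PadicInt p)) =
          (p : PadicInt p) := by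
        simp [eval_one_cyclotomic_prime_pow]
      rw [h3] at h2
      obtain ⟨c, hc⟩ := h2
      have hp0 : (p : PadicInt p) ≠ 0 := (PadicInt.prime_p (p := p)).ne_zero
      have h4 : (p : PadicInt p) * (p * c) = p * 1 := by
        rw [mul_one]
        calc (p : PadicInt p) * (p * c) = (p : PadicInt p) ^ 2 * c := by ring
          _ = p := hc.symm
      have h5 := mul_left_cancel₀ hp0 h4
      exact (PadicInt.prime_p (p := p)).not_isUnit (IsUnit.of_mul_eq_one _ h5)
  have h2 : Irreducible ((cyclotomic (p ^ (n + 1)) (PadicInt p)).comp (X + C 1)) := by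
    refine h1.irreducible hprime hmon.isPrimitive ?_
    rw [natDegree_comp, natDegree_X_add_C, mul_one, natDegree_cyclotomic]
    exact Nat.totient_pos.2 (pow_pos hp.out.pos _)
  have h3 : Irreducible (cyclotomic (p ^ (n + 1)) (PadicInt p)) := by
    have h4 : (algEquivAevalXAddC (1 : PadicInt p)) (cyclotomic (p ^ (n + 1)) (PadicInt p)) =
        (cyclotomic (p ^ (n + 1)) (PadicInt p)).comp (X + C 1) := rfl
    rw [← h4] at h2
    exact (MulEquiv.irreducible_iff (algEquivAevalXAddC (1 : PadicInt p))).1 h2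
  have h4 := ((cyclotomic.monic (p ^ (n + 1)) (PadicInt p)).irreducible_iff_irreducible_map_fraction_map
    (K := ℚ_[p])).1 h3
  rwa [map_cyclotomic] at h4

/-- If the cyclotomic polynomial of odd order `n` is irreducible then so is that of order `2n`. -/
theorem irr_two {K : Type} [Field K] [CharZero K] (n : ℕ) (hn : Odd n)
    (h : Irreducible (cyclotomic n K)) : Irreducible (cyclotomic (2 * n) K) := by
  have hn0 : 0 < n := hn.pos
  have hne : NeZero ((2 * n : ℕ) : AlgebraicClosure K) := ⟨by
    exact_mod_cast (by positivity : 2 * n ≠ 0)⟩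
  have hneK : NeZero (n : K) := ⟨by exact_mod_cast hn0.ne'⟩
  obtain ⟨ζ, hζ⟩ := HasEnoughRootsOfUnity.exists_primitiveRoot (AlgebraicClosure K) (2 * n)
  have h2 : ζ ^ n = -1 := by
    have h3 : (ζ ^ n) ^ 2 = 1 := by rw [← pow_mul, mul_comm]; exact hζ.pow_eq_one
    rcases mul_self_eq_one_iff.1 (show ζ ^ n * ζ ^ n = 1 by rw [← sq]; exact h3) with h4 | h4
    · exfalso
      have := hζ.dvd_of_pow_eq_one n h4
      have := Nat.le_of_dvd hn0 this
      omega
    · exact h4
  have h3 : IsPrimitiveRoot (-ζ) n := by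
    refine ⟨by rw [hn.neg_pow, h2, neg_neg], fun m hm => ?_⟩
    have h4 : ζ ^ (2 * m) = 1 := by
      rw [pow_mul, ← neg_sq ζ, ← pow_mul, mul_comm, pow_mul, hm, one_pow]
    have h5 := hζ.dvd_of_pow_eq_one _ h4
    exact Nat.dvd_of_mul_dvd_mul_left (by norm_num) h5
  have h4 := h3.minpoly_eq_cyclotomic_of_irreducible h
  have h5 : (minpoly K ζ).natDegree = (cyclotomic (2 * n) K).natDegree := by
    have h6 := minpoly.neg (A := K) (-ζ)
    rw [neg_neg] at h6
    have h7 : (minpoly K ζ).natDegree = (minpoly K (-ζ)).natDegree := by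
      rw [h6]
      have h8 : ((-1 : K[X]) ^ (minpoly K (-ζ)).natDegree) =
          C ((-1 : K) ^ (minpoly K (-ζ)).natDegree) := by simp
      rw [h8, natDegree_C_mul (pow_ne_zero _ (by norm_num)), natDegree_comp, natDegree_neg,
        natDegree_X, mul_one]
    rw [h7, ← h4, natDegree_cyclotomic, natDegree_cyclotomic,
      Nat.totient_mul (Nat.coprime_two_left.2 hn), Nat.totient_two, one_mul]
  have hint : IsIntegral K ζ := Algebra.IsIntegral.isIntegral ζ
  have h6 : minpoly K ζ ∣ cyclotomic (2 * n) K := by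
    apply minpoly.dvd
    rw [aeval_def, eval₂_eq_eval_map, map_cyclotomic]
    exact (isRoot_cyclotomic_iff.2 hζ)
  have h7 := eq_of_monic_of_dvd_of_natDegree_le (minpoly.monic hint) (cyclotomic.monic (2 * n) K)
    h6 h5.ge
  rw [h7]
  exact minpoly.irreducible hint

/-- All divisors of `2 * 3 ^ j`. -/
theorem irr_dvd (j e : ℕ) (he : e ∣ 2 * 3 ^ j) : Irreducible (cyclotomic e ℚ_[3]) := by
  have h3 : ∀ i : ℕ, Irreducible (cyclotomic (3 ^ i) ℚ_[3]) := by
    intro i
    rcases i with _ | i
    · rw [pow_zero, cyclotomic_one]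
      exact irreducible_of_degree_eq_one (by
        rw [← C_1]
        exact degree_X_sub_C 1)
    · exact irr_pow 3 i
  obtain ⟨a, b, ha, hb, rfl⟩ := (Nat.dvd_mul).1 he
  obtain ⟨i, _, rfl⟩ := (Nat.dvd_prime_pow Nat.prime_three).1 hb
  rcases (Nat.dvd_prime Nat.prime_two).1 ha with rfl | rfl
  · rw [one_mul]
    exact h3 i
  · exact irr_two _ (Odd.pow (by decide)) (h3 i)

end Pool.Agent.LeoD.H48
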