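import Mathlib
import Pool.Agent.Helper48_LeoD.LayA
import Pool.Agent.Helper48_LeoD.LayC
import Pool.Agent.Helper56_Leo4.Rqu
import Pool.Agent.Helper85_Leo.Defs

/-!
# LAY (squad LEOD), part B: cyclic totally real fields
-/

set_option autoImplicit false

open Polynomial Filter Topology NumberField Module

namespace Pool.Agent.LeoD.H48

/-- Maximum principle. -/
theorem maxp (d : ℕ) (lam : ℕ → ℝ) (hneg : ∀ t, ¬ d ∣ t → lam t < 0)
    (hsum : ∀ i, ∑ t ∈ Finset.range d, lam (t + i) = 0) (q : ℕ → ℝ)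
    (hq : ∀ i, ∑ t ∈ Finset.range d, q t * lam (t + i) = 0) :
    ∀ s t, s < d → t < d → q s = q t := by
  rcases Nat.eq_zero_or_pos d with h0 | h0
  · intro s t hs
    omega
  obtain ⟨t₀, ht₀, hmax⟩ := (Finset.range d).exists_max_image q ⟨0, Finset.mem_range.2 h0⟩
  have ht₀' := Finset.mem_range.1 ht₀
  have key : ∀ t ∈ Finset.range d, q t = q t₀ := by
    have h1 : ∑ t ∈ Finset.range d, (q t - q t₀) * (if t = t₀ then 0 else lam (t + (d - t₀))) = 0 := by
      have h2 : ∑ t ∈ Finset.range d, (q t - q t₀) * (if t = t₀ then 0 else lam (t + (d - t₀))) =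
          ∑ t ∈ Finset.range d, (q t * lam (t + (d - t₀)) - q t₀ * lam (t + (d - t₀))) := by
        refine Finset.sum_congr rfl fun t _ => ?_
        split_ifs with h
        · rw [h]; ring
        · ring
      rw [h2, Finset.sum_sub_distrib, ← Finset.mul_sum, hq, hsum]
      ring
    have h2 : ∀ t ∈ Finset.range d,
        0 ≤ (q t - q t₀) * (if t = t₀ then 0 else lam (t + (d - t₀))) := by
      intro t ht
      split_ifs with h
      · rw [mul_zero]
      · refine mul_nonneg_of_nonpos_of_nonpos (sub_nonpos.2 (hmax t ht)) (hneg _ ?_).le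
        have ht' := Finset.mem_range.1 ht
        intro h3
        obtain ⟨c, hc⟩ := h3
        have h4 : c = 1 := by
          rcases Nat.lt_or_ge c 1 with h5 | h5
          · have : c = 0 := by omega
            rw [this, mul_zero] at hc
            omega
          · rcases Nat.lt_or_ge 1 c with h6 | h6
            · have : d * 2 ≤ d * c := Nat.mul_le_mul_left d h6
              omega
            · omega
        rw [h4, mul_one] at hc
        omega
    have h3 := (Finset.sum_eq_zero_iff_of_nonneg h2).1 h1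
    intro t ht
    by_cases h : t = t₀
    · rw [h]
    · have h4 := h3 t ht
      rw [if_neg h] at h4
      rcases mul_eq_zero.1 h4 with h5 | h5
      · linarith
      · exfalso
        have h6 : lam (t + (d - t₀)) < 0 := hneg _ (by
          have ht' := Finset.mem_range.1 ht
          intro h3
          obtain ⟨c, hc⟩ := h3
          have h4 : c = 1 := by
            rcases Nat.lt_or_ge c 1 with h5 | h5
            · have : c = 0 := by omega
              rw [this, mul_zero] at hc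
              omega
            · rcases Nat.lt_or_ge 1 c with h6 | h6
              · have : d * 2 ≤ d * c := Nat.mul_le_mul_left d h6
                omega
              · omega
          rw [h4, mul_one] at hc
          omega)
        linarith
  intro s t hs ht
  rw [key s (Finset.mem_range.2 hs), key t (Finset.mem_range.2 ht)]

section

variable {F : Type} [Field F] [NumberField F]

/-- The action of an automorphism on the units. -/
noncomputable def act (σ : F ≃ₐ[ℚ] F) : (𝓞 F)ˣ →* (𝓞 F)ˣ :=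
  Units.map (RingOfIntegers.mapRingHom (σ : F →+* F) : 𝓞 F →* 𝓞 F)

theorem coe_act (σ : F ≃ₐ[ℚ] F) (u : (𝓞 F)ˣ) :
    (((act σ u : (𝓞 F)ˣ) : 𝓞 F) : F) = σ ((u : 𝓞 F) : F) := rfl

/-- The action of an automorphism on the additive group of units. -/
noncomputable def actS (σ : F ≃ₐ[ℚ] F) : Module.End ℤ (Additive (𝓞 F)ˣ) :=
  (MonoidHom.toAdditive (act σ)).toIntLinearMap

theorem actS_pow (σ : F ≃ₐ[ℚ] F) (t : ℕ) (u : (𝓞 F)ˣ) :
    ((((Additive.toMul ((actS σ ^ t) (Additive.ofMul u)) : (𝓞 F)ˣ) : 𝓞 F)) : F) =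
      (σ ^ t) ((u : 𝓞 F) : F) := by
  induction t generalizing u with
  | zero => rfl
  | succ t ih =>
    rw [pow_succ, Module.End.mul_apply]
    have h1 : actS σ (Additive.ofMul u) = Additive.ofMul (act σ u) := rfl
    rw [h1, ih, coe_act, pow_succ]
    rfl

/-- The reduction of units. -/
noncomputable def redU (F : Type) [Field F] (N : ℕ) :
    (𝓞 F)ˣ →* (𝓞 F ⧸ Ideal.span {((3 : ℕ) : 𝓞 F) ^ N})ˣ :=
  Units.map (Ideal.Quotient.mk (Ideal.span {((3 : ℕ) : 𝓞 F) ^ N}) :
    𝓞 F →* 𝓞 F ⧸ Ideal.span {((3 : ℕ) : 𝓞 F) ^ N})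

/-- The filtration. -/
noncomputable def Dn (F : Type) [Field F] (N : ℕ) : Submodule ℤ (Additive (𝓞 F)ˣ) :=
  AddSubgroup.toIntSubmodule (MonoidHom.toAdditive (redU F N)).ker

omit [NumberField F] in
theorem mem_Dn (N : ℕ) (u : (𝓞 F)ˣ) :
    Additive.ofMul u ∈ Dn F N ↔ ((3 : ℕ) : 𝓞 F) ^ N ∣ ((u : 𝓞 F) - 1) := by
  rw [← Ideal.mem_span_singleton, ← Ideal.Quotient.eq_zero_iff_mem, map_sub, map_one, sub_eq_zero]
  constructor
  · intro h
    have h1 : redU F N u = 1 := h
    exact congrArg (fun x : (𝓞 F ⧸ (Ideal.span {((3 : ℕ) : 𝓞 F) ^ N}))ˣ =>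
      (x : 𝓞 F ⧸ (Ideal.span {((3 : ℕ) : 𝓞 F) ^ N}))) h1
  · intro h
    have h1 : redU F N u = 1 := Units.ext h
    exact h1

theorem actS_Dn (σ : F ≃ₐ[ℚ] F) (N : ℕ) (x : Additive (𝓞 F)ˣ) (hx : x ∈ Dn F N) :
    actS σ x ∈ Dn F N := by
  obtain ⟨u, hu⟩ : ∃ u : (𝓞 F)ˣ, Additive.ofMul u = x := ⟨Additive.toMul x, rfl⟩
  rw [← hu] at hx ⊢
  have h1 : actS σ (Additive.ofMul u) = Additive.ofMul (act σ u) := rfl
  rw [h1, mem_Dn]
  rw [mem_Dn] at hx
  obtain ⟨c, hc⟩ := hx
  refine ⟨RingOfIntegers.mapRingHom (σ : F →+* F) c, ?_⟩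
  have h2 := congrArg (RingOfIntegers.mapRingHom (σ : F →+* F)) hc
  rw [map_sub, map_one, map_mul, map_pow, map_natCast] at h2
  exact h2

theorem Dn_zero (x : Additive (𝓞 F)ˣ) (hx : ∀ N, x ∈ Dn F N) : x = 0 := by
  obtain ⟨u, hu⟩ : ∃ u : (𝓞 F)ˣ, Additive.ofMul u = x := ⟨Additive.toMul x, rfl⟩
  rw [← hu] at hx ⊢
  have h1 : (u : 𝓞 F) - 1 = 0 := Leo4.H56.eq_zero_of_dvd _ fun N => (mem_Dn N u).1 (hx N)
  have h2 : u = 1 := Units.ext (sub_eq_zero.1 h1)
  rw [h2]
  rfl

/-- The logarithm at a place. -/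
noncomputable def ell (w : InfinitePlace F) : Additive (𝓞 F)ˣ →+ ℝ where
  toFun x := Real.log (w ((Additive.toMul x : (𝓞 F)ˣ) : 𝓞 F))
  map_zero' := by simp
  map_add' x y := by
    have h1 : w ((((Additive.toMul (x + y) : (𝓞 F)ˣ) : 𝓞 F)) : F) =
        w ((Additive.toMul x : (𝓞 F)ˣ) : 𝓞 F) * w ((Additive.toMul y : (𝓞 F)ˣ) : 𝓞 F) := by
      rw [← map_mul w]
      rfl
    rw [h1, Real.log_mul (Units.pos_at_place _ w).ne' (Units.pos_at_place _ w).ne']

omit [NumberField F] in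
theorem ell_smul (w : InfinitePlace F) (k : ℤ) (x : Additive (𝓞 F)ˣ) :
    ell w (k • x) = k * ell w x := by
  rw [map_zsmul, zsmul_eq_mul]

omit [NumberField F] in
theorem ell_aeval (w : InfinitePlace F) (S : Module.End ℤ (Additive (𝓞 F)ˣ)) (Q : ℤ[X]) (d : ℕ)
    (hd : Q.natDegree < d) (x : Additive (𝓞 F)ˣ) :
    ell w (aeval S Q x) = ∑ t ∈ Finset.range d, (Q.coeff t : ℝ) * ell w ((S ^ t) x) := by
  rw [aeval_eq_sum_range' hd, LinearMap.sum_apply, map_sum]
  refine Finset.sum_congr rfl fun t _ => ?_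
  rw [LinearMap.smul_apply, ell_smul]

/-- The norm. -/
theorem prod_pow (σ : F ≃ₐ[ℚ] F) [IsGalois ℚ F] (hσ : ∀ x, x ∈ Subgroup.zpowers σ) (x : F) :
    ∏ t ∈ Finset.range (finrank ℚ F), (σ ^ t) x = algebraMap ℚ F (Algebra.norm ℚ x) := by
  classical
  have ho : orderOf σ = finrank ℚ F := by
    rw [orderOf_eq_card_of_forall_mem_zpowers hσ, IsGalois.card_aut_eq_finrank]
  rw [Algebra.norm_eq_prod_automorphisms, ← IsCyclic.image_range_orderOf hσ, ho,
    Finset.prod_image]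
  intro a ha b hb hab
  rw [Finset.coe_range, Set.mem_Iio, ← ho] at ha hb
  exact pow_injOn_Iio_orderOf ha hb hab

theorem ell_sum (σ : F ≃ₐ[ℚ] F) [IsGalois ℚ F] (hσ : ∀ x, x ∈ Subgroup.zpowers σ)
    (w : InfinitePlace F) (x : Additive (𝓞 F)ˣ) (i : ℕ) :
    ∑ t ∈ Finset.range (finrank ℚ F), ell w ((actS σ ^ (t + i)) x) = 0 := by
  obtain ⟨u, hu⟩ : ∃ u : (𝓞 F)ˣ, Additive.ofMul u = (actS σ ^ i) x :=
    ⟨Additive.toMul ((actS σ ^ i) x), rfl⟩
  have h1 : ∀ t, (actS σ ^ (t + i)) x = (actS σ ^ t) (Additive.ofMul u) := by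
    intro t
    rw [pow_add, Module.End.mul_apply, hu]
  simp_rw [h1]
  have h2 : ∀ t, ell w ((actS σ ^ t) (Additive.ofMul u)) =
      Real.log (w ((σ ^ t) ((u : 𝓞 F) : F))) := by
    intro t
    rw [← actS_pow]
    rfl
  simp_rw [h2]
  rw [← Real.log_prod, ← map_prod, prod_pow σ hσ]
  · have h3 : |Algebra.norm ℚ ((u : 𝓞 F) : F)| = 1 := by
      have := NumberField.isUnit_iff_norm.1 u.isUnit
      rwa [RingOfIntegers.coe_norm] at this
    rcases abs_eq (by norm_num : (0 : ℚ) ≤ 1) |>.1 h3 with h4 | h4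
    · rw [h4, map_one, map_one, Real.log_one]
    · rw [h4, map_neg, map_one]
      have h5 : w (-1 : F) = 1 := by
        rw [← InfinitePlace.norm_embedding_eq, map_neg, map_one, norm_neg, norm_one]
      rw [h5, Real.log_one]
  · intro t _
    rw [← actS_pow]
    exact (Units.pos_at_place _ w).ne'

/-- Conjugate places. -/
theorem comap_ne [IsTotallyReal F] (w : InfinitePlace F) (σ : F ≃ₐ[ℚ] F) (h : σ ≠ 1) :
    w.comap (σ : F →+* F) ≠ w := by
  intro h1
  apply h
  have hr : ComplexEmbedding.IsReal w.embedding := by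
    have := IsTotallyReal.isReal w
    rwa [InfinitePlace.isReal_iff] at this
  have h2 : InfinitePlace.mk (w.embedding.comp (σ : F →+* F)) = InfinitePlace.mk w.embedding := by
    rw [← InfinitePlace.comap_mk, InfinitePlace.mk_embedding, h1]
  have h3 : w.embedding.comp (σ : F →+* F) = w.embedding := by
    rcases InfinitePlace.mk_eq_iff.1 h2 with h4 | h4
    · exact h4
    · have h5 := hr.comp (σ : F →+* F)
      rw [ComplexEmbedding.isReal_iff] at h5
      rw [h5] at h4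
      exact h4
  ext x
  have h4 := congrArg (fun f : F →+* ℂ => f x) h3
  exact w.embedding.injective h4

theorem comm_aeval {A : Type*} [AddCommGroup A] (S : Module.End ℤ A) (Q : ℤ[X]) (i : ℕ) (x : A) :
    (S ^ i) (aeval S Q x) = aeval S Q ((S ^ i) x) := by
  have h1 : S ^ i = aeval S (X ^ i : ℤ[X]) := by rw [map_pow, aeval_X]
  rw [h1, ← Module.End.mul_apply, ← Module.End.mul_apply, ← map_mul, ← map_mul, mul_comm]

/-- The unit `η` generates a free module modulo the norm. -/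
theorem nontors (σ : F ≃ₐ[ℚ] F) [IsGalois ℚ F] [IsTotallyReal F]
    (hσ : ∀ x, x ∈ Subgroup.zpowers σ) (w : InfinitePlace F) (η : (𝓞 F)ˣ)
    (hη : ∀ w' : InfinitePlace F, w' ≠ w → Real.log (w' η) < 0) (Q : ℤ[X]) (hQ : Q ≠ 0)
    (hd : Q.natDegree < finrank ℚ F - 1) (k : ℤ) (hk : k ≠ 0) :
    k • aeval (actS σ) Q (Additive.ofMul η) ≠ 0 := by
  intro h0
  have ho : orderOf σ = finrank ℚ F := by
    rw [orderOf_eq_card_of_forall_mem_zpowers hσ, IsGalois.card_aut_eq_finrank]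
  have hneg : ∀ t, ¬ finrank ℚ F ∣ t → ell w ((actS σ ^ t) (Additive.ofMul η)) < 0 := by
    intro t ht
    have h1 : σ ^ t ≠ 1 := fun h => ht (by rw [← ho]; exact orderOf_dvd_of_pow_eq_one h)
    have h2 := hη _ (comap_ne w (σ ^ t) h1)
    rw [InfinitePlace.comap_apply] at h2
    have h3 : ell w ((actS σ ^ t) (Additive.ofMul η)) =
        Real.log (w ((σ ^ t) ((η : 𝓞 F) : F))) := by
      rw [← actS_pow]
      rfl
    rw [h3]
    exact h2
  have hq : ∀ i, ∑ t ∈ Finset.range (finrank ℚ F), (Q.coeff t : ℝ) *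
      ell w ((actS σ ^ (t + i)) (Additive.ofMul η)) = 0 := by
    intro i
    have h1 := congrArg (actS σ ^ i) h0
    rw [map_zsmul, map_zero, comm_aeval] at h1
    have h2 := congrArg (ell w) h1
    rw [ell_smul, map_zero, ell_aeval w _ Q (finrank ℚ F) (by omega)] at h2
    rcases mul_eq_zero.1 h2 with h3 | h3
    · exact absurd (by exact_mod_cast h3) hk
    · rw [← h3]
      refine Finset.sum_congr rfl fun t _ => ?_
      rw [pow_add, Module.End.mul_apply]
  have h1 := maxp (finrank ℚ F) (fun t => ell w ((actS σ ^ t) (Additive.ofMul η))) hneg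
    (fun i => ell_sum σ hσ w _ i) (fun t => (Q.coeff t : ℝ)) hq
  apply hQ
  ext t
  rw [coeff_zero]
  by_cases ht : t < finrank ℚ F
  · have h2 := h1 t (finrank ℚ F - 1) ht (by omega)
    rw [coeff_eq_zero_of_natDegree_lt hd] at h2
    exact_mod_cast h2
  · exact coeff_eq_zero_of_natDegree_lt (by omega)

theorem rank_eq [IsTotallyReal F] : Units.rank F = finrank ℚ F - 1 := by
  rw [Units.rank, InfinitePlace.card_eq_nrRealPlaces_add_nrComplexPlaces,
    IsTotallyReal.nrComplexPlaces_eq_zero, add_zero, IsTotallyReal.finrank]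

theorem exists_mul (σ : F ≃ₐ[ℚ] F) [IsGalois ℚ F] [IsTotallyReal F]
    (hσ : ∀ x, x ∈ Subgroup.zpowers σ) (w : InfinitePlace F) (η : (𝓞 F)ˣ)
    (hη : ∀ w' : InfinitePlace F, w' ≠ w → Real.log (w' η) < 0) (ε : Additive (𝓞 F)ˣ) :
    ∃ (k : ℤ) (Q : ℤ[X]), k ≠ 0 ∧ k • ε = aeval (actS σ) Q (Additive.ofMul η) := by
  let f : Option (Fin (finrank ℚ F - 1)) → Additive (𝓞 F)ˣ := fun o =>
    o.elim ε fun t => (actS σ ^ (t : ℕ)) (Additive.ofMul η)
  have hdep : ¬ LinearIndependent ℤ f := by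
    intro hli
    have h1 := hli.fintype_card_le_finrank
    rw [Units.finrank_eq, Fintype.card_option, Fintype.card_fin, rank_eq] at h1
    omega
  rw [Fintype.not_linearIndependent_iff] at hdep
  obtain ⟨c, hc, o, ho⟩ := hdep
  rw [Fintype.sum_option] at hc
  obtain ⟨Q, hQ⟩ : ∃ Q : ℤ[X], Q = ∑ t : Fin (finrank ℚ F - 1), C (c (some t)) * X ^ (t : ℕ) :=
    ⟨_, rfl⟩
  have hQ1 : aeval (actS σ) Q (Additive.ofMul η) =
      ∑ t : Fin (finrank ℚ F - 1), c (some t) • (actS σ ^ (t : ℕ)) (Additive.ofMul η) := by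
    rw [hQ, map_sum, LinearMap.sum_apply]
    refine Finset.sum_congr rfl fun t _ => ?_
    rw [map_mul, Module.End.mul_apply, aeval_C, map_pow, aeval_X]
    rfl
  have hc' : c none • ε + aeval (actS σ) Q (Additive.ofMul η) = 0 := by
    rw [hQ1]
    exact hc
  refine ⟨c none, -Q, ?_, ?_⟩
  · intro h0
    rw [h0, zero_smul, zero_add] at hc'
    have hQ0 : Q = 0 := by
      by_contra hne
      refine nontors σ hσ w η hη Q hne ?_ 1 one_ne_zero (by rw [one_smul]; exact hc')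
      rw [natDegree_lt_iff_degree_lt hne, hQ]
      exact degree_sum_fin_lt _
    rcases o with _ | t
    · exact ho h0
    · apply ho
      have h1 : Q.coeff t = c (some t) := by
        rw [hQ, finsetSum_coeff, Finset.sum_eq_single t]
        · rw [coeff_C_mul, coeff_X_pow, if_pos rfl, mul_one]
        · intro s _ hst
          rw [coeff_C_mul, coeff_X_pow, if_neg (fun h => hst (Fin.ext h.symm)), mul_zero]
        · intro h
          exact absurd (Finset.mem_univ _) h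
      rw [← h1, hQ0, coeff_zero]
  · rw [map_neg, LinearMap.neg_apply]
    exact eq_neg_of_add_eq_zero_left hc'

/-- Leopoldt's conjecture at 3 for cyclic totally real fields for which the cyclotomic polynomials
are irreducible over `ℚ_3`. -/
theorem leo_cyclic (σ : F ≃ₐ[ℚ] F) [IsGalois ℚ F] [IsTotallyReal F]
    (hσ : ∀ x, x ∈ Subgroup.zpowers σ)
    (hirr : ∀ e : ℕ, e ∣ finrank ℚ F → Irreducible (cyclotomic e ℚ_[3])) :
    Pool.Agent.Helper85_Leo.LeopoldtAt F 3 := by
  classical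
  have hd0 : 0 < finrank ℚ F := finrank_pos
  obtain ⟨w⟩ := (inferInstance : Nonempty (InfinitePlace F))
  obtain ⟨u, hu⟩ := Units.dirichletUnitTheorem.exists_unit F w
  obtain ⟨J, hJ⟩ : ∃ J : Ideal (𝓞 F), J = (Ideal.span {((3 : ℕ) : 𝓞 F)}).radical := ⟨_, rfl⟩
  have hJ0 : J ≠ ⊥ := by
    intro h
    have h1 : ((3 : ℕ) : 𝓞 F) ∈ J := by
      rw [hJ]
      exact Ideal.le_radical (Ideal.mem_span_singleton_self _)
    rw [h, Ideal.mem_bot] at h1
    norm_num at h1
  have hfin : Finite (𝓞 F ⧸ J) := Ideal.finiteQuotientOfFreeOfNeBot J hJ0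
  obtain ⟨κ, hκ⟩ : ∃ κ : ℕ, κ = Nat.card (𝓞 F ⧸ J)ˣ := ⟨_, rfl⟩
  have hκ0 : 0 < κ := by rw [hκ]; exact Nat.card_pos
  obtain ⟨η, hη⟩ : ∃ η : (𝓞 F)ˣ, η = u ^ (2 * κ) := ⟨_, rfl⟩
  have hηJ : (η : 𝓞 F) - 1 ∈ (Ideal.span {((3 : ℕ) : 𝓞 F)}).radical := by
    rw [← hJ, ← Ideal.Quotient.eq_zero_iff_mem, map_sub, map_one, sub_eq_zero]
    have h1 : (Units.map (Ideal.Quotient.mk J : 𝓞 F →* 𝓞 F ⧸ J) u) ^ κ = 1 := by
      rw [hκ]
      exact pow_card_eq_one'
    have h2 : Units.map (Ideal.Quotient.mk J : 𝓞 F →* 𝓞 F ⧸ J) η = 1 := by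
      rw [hη, map_pow, mul_comm, pow_mul, h1, one_pow]
    exact congrArg (fun x : (𝓞 F ⧸ J)ˣ => (x : 𝓞 F ⧸ J)) h2
  have hηlog : ∀ w' : InfinitePlace F, w' ≠ w → Real.log (w' η) < 0 := by
    intro w' hw'
    rw [hη, Units.val_pow_eq_pow_val, map_pow, map_pow, Real.log_pow]
    have h1 : (0 : ℝ) < ((2 * κ : ℕ) : ℝ) := by exact_mod_cast (by positivity : 0 < 2 * κ)
    exact mul_neg_of_pos_of_neg h1 (hu w' hw')
  -- the norm of `η`
  have hnorm : Algebra.norm ℚ ((η : 𝓞 F) : F) = 1 := by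
    have h3 : |Algebra.norm ℚ ((u : 𝓞 F) : F)| = 1 := by
      have := NumberField.isUnit_iff_norm.1 u.isUnit
      rwa [RingOfIntegers.coe_norm] at this
    have h5 : ((η : 𝓞 F) : F) = ((u : 𝓞 F) : F) ^ (2 * κ) := by
      rw [hη, Units.val_pow_eq_pow_val]
      exact map_pow (algebraMap (𝓞 F) F) _ _
    rw [h5, map_pow, pow_mul]
    have h4 : Algebra.norm ℚ ((u : 𝓞 F) : F) ^ 2 = 1 := by
      rw [← sq_abs, h3, one_pow]
    rw [h4, one_pow]
  have hT0 : aeval (actS σ) (∑ t ∈ Finset.range (finrank ℚ F), (X : ℤ[X]) ^ t)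
      (Additive.ofMul η) = 0 := by
    rw [map_sum, LinearMap.sum_apply]
    have h1 : ∀ t, aeval (actS σ) ((X : ℤ[X]) ^ t) = actS σ ^ t := by
      intro t
      rw [map_pow, aeval_X]
    simp_rw [h1]
    have h2 : (((Additive.toMul (∑ t ∈ Finset.range (finrank ℚ F),
        (actS σ ^ t) (Additive.ofMul η)) : (𝓞 F)ˣ) : 𝓞 F) : F) = 1 := by
      rw [toMul_sum, Units.coe_prod]
      refine (map_prod (algebraMap (𝓞 F) F) _ _).trans ?_
      have h3 := prod_pow σ hσ ((η : 𝓞 F) : F)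
      rw [hnorm, map_one] at h3
      rw [← h3]
      exact Finset.prod_congr rfl fun t _ => actS_pow σ t η
    have h3 : Additive.toMul (∑ t ∈ Finset.range (finrank ℚ F),
        (actS σ ^ t) (Additive.ofMul η)) = 1 := by
      apply Units.ext
      apply RingOfIntegers.ext
      rw [h2]
      simp
    exact h3
  have hTeq : ∏ i ∈ (finrank ℚ F).divisors.erase 1, cyclotomic i ℤ =
      ∑ t ∈ Finset.range (finrank ℚ F), (X : ℤ[X]) ^ t := prod_cyclotomic_eq_geom_sum hd0 ℤ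
  have hTdeg : (∏ i ∈ (finrank ℚ F).divisors.erase 1, cyclotomic i ℤ).natDegree =
      finrank ℚ F - 1 := by
    have h1 := prod_cyclotomic_eq_X_pow_sub_one hd0 ℤ
    rw [← Finset.mul_prod_erase _ _ (Nat.mem_divisors.2 ⟨one_dvd _, hd0.ne'⟩), cyclotomic_one] at h1
    have h2 := congrArg natDegree h1
    rw [← C_1, natDegree_X_pow_sub_C, (monic_X_sub_C (1 : ℤ)).natDegree_mul
      (monic_prod_of_monic _ _ fun i _ => cyclotomic.monic i ℤ), natDegree_X_sub_C] at h2
    omega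
  intro n ε hε1 hε a m hm hd
  refine core (S := actS σ) (D := Dn F) (η := Additive.ofMul η) (fun N x hx => actS_Dn σ N x hx)
    Dn_zero ?_ ((finrank ℚ F).divisors.erase 1) (fun i => cyclotomic i ℤ)
    (fun i _ => cyclotomic.monic i ℤ) ?_ ?_ ?_ ?_ (fun i => Additive.ofMul (ε i)) ?_ ?_ a m hm ?_
  · intro N
    obtain ⟨M, hM⟩ := Leo4.H56.three_pow_dvd (η : 𝓞 F) hηJ N
    refine ⟨M, ?_⟩
    have h1 : (3 : ℤ) ^ M • Additive.ofMul η = Additive.ofMul (η ^ 3 ^ M) := by
      rw [ofMul_pow, ← natCast_zsmul]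
      push_cast
      rfl
    rw [h1, mem_Dn]
    exact hM
  · intro i hi
    rw [map_cyclotomic]
    exact hirr i (Nat.dvd_of_mem_divisors (Finset.mem_of_mem_erase hi))
  · intro i _ j _ hij
    have h1 := (cyclotomic.isCoprime_rat hij).map (mapRingHom (algebraMap ℚ ℚ_[3]))
    rw [coe_mapRingHom, map_cyclotomic, map_cyclotomic] at h1
    simp only [Function.onFun, map_cyclotomic]
    exact h1
  · rw [hTeq]
    exact hT0
  · rw [hTdeg]
    intro Q hQ hQd k hk
    exact nontors σ hσ w η hηlog Q hQ hQd k hk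
  · intro c hc
    apply hε c
    have h1 : Additive.ofMul (∏ i, ε i ^ c i) = ∑ i, c i • Additive.ofMul (ε i) := by
      rw [ofMul_prod]
      rfl
    rw [← h1] at hc
    exact hc
  · intro i
    exact exists_mul σ hσ w η hηlog _
  · intro N
    filter_upwards [hd N] with k hk
    have h1 : ∑ i, m k i • Additive.ofMul (ε i) = Additive.ofMul (∏ i, ε i ^ m k i) := by
      rw [ofMul_prod]
      rfl
    rw [h1, mem_Dn]
    exact hk

end

end Pool.Agent.LeoD.H48
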