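import Mathlib
import Pool.Agent.LeoD.TowStmts
import Pool.Agent.Helper48_LeoD.LayB
import Pool.Agent.Helper90_LeoD.Qtrt

/-!
# LAY (squad LEOD): the layers of the cyclotomic extension over a real quadratic field
-/

set_option autoImplicit false

open NumberField NumberField.InfinitePlace Module
open Pool.Agent.Helper85_Leo

namespace Pool.Agent.LeoD.H48

/-- The field generated by the roots of unity of order `3 ^ n`. -/
noncomputable def cyQ (n : ℕ) : IntermediateField ℚ (AlgebraicClosure ℚ) :=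
  IntermediateField.adjoin ℚ
    {x : AlgebraicClosure ℚ | ∃ m ∈ ({3 ^ n} : Set ℕ), m ≠ 0 ∧ x ^ m = 1}

theorem mem_cyQ {x : AlgebraicClosure ℚ} (hx : x ∈ mu3) : ∃ n : ℕ, ∀ m : ℕ, n ≤ m → x ∈ cyQ m := by
  unfold mu3 at hx
  induction hx using IntermediateField.adjoin_induction with
  | mem x hx =>
    obtain ⟨n, hn⟩ := hx
    refine ⟨n, fun m hm => ?_⟩
    apply IntermediateField.subset_adjoin
    refine ⟨3 ^ m, rfl, pow_ne_zero _ (by norm_num), ?_⟩
    obtain ⟨d, rfl⟩ := Nat.exists_eq_add_of_le hm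
    rw [pow_add, pow_mul, hn, one_pow]
  | algebraMap x => exact ⟨0, fun m _ => (cyQ m).algebraMap_mem x⟩
  | add x y _ _ hx hy =>
    obtain ⟨a, ha⟩ := hx
    obtain ⟨b, hb⟩ := hy
    exact ⟨max a b, fun m hm => add_mem (ha m (le_trans (le_max_left _ _) hm))
      (hb m (le_trans (le_max_right _ _) hm))⟩
  | inv x _ hx =>
    obtain ⟨a, ha⟩ := hx
    exact ⟨a, fun m hm => inv_mem (ha m hm)⟩
  | mul x y _ _ hx hy =>
    obtain ⟨a, ha⟩ := hx
    obtain ⟨b, hb⟩ := hy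
    exact ⟨max a b, fun m hm => mul_mem (ha m (le_trans (le_max_left _ _) hm))
      (hb m (le_trans (le_max_right _ _) hm))⟩

theorem le_cyQ (M : IntermediateField ℚ (AlgebraicClosure ℚ)) (hM : M ≤ mu3)
    (hf : finrank ℚ M ≠ 0) : ∃ n : ℕ, M ≤ cyQ n := by
  have hfd : FiniteDimensional ℚ M := FiniteDimensional.of_finrank_pos (Nat.pos_of_ne_zero hf)
  let b := Module.finBasis ℚ M
  have h1 : ∀ i, ∃ n : ℕ, ∀ m : ℕ, n ≤ m → ((b i : M) : AlgebraicClosure ℚ) ∈ cyQ m :=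
    fun i => mem_cyQ (hM (b i).2)
  choose f hf' using h1
  refine ⟨Finset.univ.sup f, fun x hx => ?_⟩
  have h2 : (x : AlgebraicClosure ℚ) = ∑ i, algebraMap ℚ (AlgebraicClosure ℚ)
      (b.repr ⟨x, hx⟩ i) * ((b i : M) : AlgebraicClosure ℚ) := by
    have h3 := congrArg (fun t : M => (t : AlgebraicClosure ℚ)) (b.sum_repr ⟨x, hx⟩)
    simp only [IntermediateField.coe_sum] at h3
    refine h3.symm.trans (Finset.sum_congr rfl fun i _ => ?_)
    rw [← Algebra.smul_def]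
    rfl
  rw [h2]
  exact sum_mem fun i _ => mul_mem ((cyQ _).algebraMap_mem _)
    (hf' i _ (Finset.le_sup (Finset.mem_univ i)))

/-- The subfields of the cyclotomic field are cyclic. -/
theorem cyc_sub (n : ℕ) (M : IntermediateField ℚ (AlgebraicClosure ℚ)) (hM : M ≤ cyQ n) :
    IsGalois ℚ M ∧ IsCyclic (M ≃ₐ[ℚ] M) := by
  have h1 : IsCyclotomicExtension {3 ^ n} ℚ (cyQ n) := by
    refine IntermediateField.isCyclotomicExtension_adjoin_of_exists_isPrimitiveRoot {3 ^ n} ℚ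
      (AlgebraicClosure ℚ) ?_
    intro m _ hm0
    have : NeZero ((m : ℕ) : AlgebraicClosure ℚ) := ⟨by exact_mod_cast hm0⟩
    exact HasEnoughRootsOfUnity.exists_primitiveRoot (AlgebraicClosure ℚ) m
  have h2 : IsAbelianGalois ℚ (cyQ n) := IsCyclotomicExtension.isAbelianGalois {3 ^ n} ℚ (cyQ n)
  let _ : Algebra M (cyQ n) := (IntermediateField.inclusion hM).toRingHom.toAlgebra
  have h3 : IsScalarTower ℚ M (cyQ n) := IsScalarTower.of_algebraMap_eq fun x => rfl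
  have h4 : IsAbelianGalois ℚ M := IsAbelianGalois.tower_bot ℚ M (cyQ n)
  have h5 : IsGalois ℚ M := inferInstance
  refine ⟨h5, ?_⟩
  have : NeZero (3 ^ n) := ⟨by positivity⟩
  have e := IsCyclotomicExtension.autEquivPow (n := 3 ^ n) (K := ℚ) (cyQ n)
    (Polynomial.cyclotomic.irreducible_rat (by positivity : 0 < 3 ^ n))
  have h6 : IsCyclic (ZMod (3 ^ n))ˣ :=
    ZMod.isCyclic_units_of_prime_pow 3 Nat.prime_three (by norm_num) n
  have h7 : IsCyclic (cyQ n ≃ₐ[ℚ] cyQ n) := isCyclic_of_surjective e.symm e.symm.surjective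
  exact isCyclic_of_surjective (AlgEquiv.restrictNormalHom (F := ℚ) (K₁ := cyQ n) M)
    (AlgEquiv.restrictNormalHom_surjective (cyQ n))

/-- Composita of normal fields. -/
theorem sup_normal (k M : IntermediateField ℚ (AlgebraicClosure ℚ)) (hk : Normal ℚ k)
    (hM : Normal ℚ M) : Normal ℚ ↥(k ⊔ M) := by
  have e1 : (DivisionRing.toRatAlgebra : Algebra ℚ k) = IntermediateField.algebra' k :=
    Subsingleton.elim _ _
  have e2 : (DivisionRing.toRatAlgebra : Algebra ℚ M) = IntermediateField.algebra' M :=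
    Subsingleton.elim _ _
  have e3 : (DivisionRing.toRatAlgebra : Algebra ℚ ↥(k ⊔ M)) = IntermediateField.algebra' (k ⊔ M) :=
    Subsingleton.elim _ _
  rw [e1] at hk
  rw [e2] at hM
  rw [e3]
  exact IntermediateField.normal_sup ℚ (AlgebraicClosure ℚ) k M

/-- Composita. -/
theorem sup_cyclic (k M : IntermediateField ℚ (AlgebraicClosure ℚ)) [IsGalois ℚ k] [IsGalois ℚ M]
    (hk : IsCyclic (k ≃ₐ[ℚ] k)) (hM : IsCyclic (M ≃ₐ[ℚ] M)) [FiniteDimensional ℚ k]
    [FiniteDimensional ℚ M] (hc : (finrank ℚ k).Coprime (finrank ℚ M)) :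
    IsGalois ℚ ↥(k ⊔ M) ∧ IsCyclic (↥(k ⊔ M) ≃ₐ[ℚ] ↥(k ⊔ M)) := by
  have hn : Normal ℚ ↥(k ⊔ M) := sup_normal k M inferInstance inferInstance
  have hG : IsGalois ℚ ↥(k ⊔ M) := ⟨⟩
  refine ⟨hG, ?_⟩
  let a1 : Algebra k ↥(k ⊔ M) :=
    (IntermediateField.inclusion (le_sup_left : k ≤ k ⊔ M)).toRingHom.toAlgebra
  let a2 : Algebra M ↥(k ⊔ M) :=
    (IntermediateField.inclusion (le_sup_right : M ≤ k ⊔ M)).toRingHom.toAlgebra
  have t1 : IsScalarTower ℚ k ↥(k ⊔ M) := IsScalarTower.of_algebraMap_eq fun x => rfl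
  have t2 : IsScalarTower ℚ M ↥(k ⊔ M) := IsScalarTower.of_algebraMap_eq fun x => rfl
  let ρ : (↥(k ⊔ M) ≃ₐ[ℚ] ↥(k ⊔ M)) →* (k ≃ₐ[ℚ] k) × (M ≃ₐ[ℚ] M) :=
    (AlgEquiv.restrictNormalHom (F := ℚ) (K₁ := ↥(k ⊔ M)) k).prod
      (AlgEquiv.restrictNormalHom (F := ℚ) (K₁ := ↥(k ⊔ M)) M)
  have hcyc : IsCyclic ((k ≃ₐ[ℚ] k) × (M ≃ₐ[ℚ] M)) := by
    rw [Group.isCyclic_prod_iff]
    refine ⟨hk, hM, ?_⟩
    rw [IsGalois.card_aut_eq_finrank, IsGalois.card_aut_eq_finrank]
    exact hc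
  refine isCyclic_of_injective ρ ?_
  rw [injective_iff_map_eq_one]
  intro g hg
  have hg1 : AlgEquiv.restrictNormalHom (F := ℚ) (K₁ := ↥(k ⊔ M)) k g = 1 := congrArg Prod.fst hg
  have hg2 : AlgEquiv.restrictNormalHom (F := ℚ) (K₁ := ↥(k ⊔ M)) M g = 1 := congrArg Prod.snd hg
  let E : IntermediateField ℚ ↥(k ⊔ M) := IntermediateField.fixedField (Subgroup.zpowers g)
  have hE : ∀ x : ↥(k ⊔ M), g x = x → x ∈ E := by
    intro x hx
    rw [IntermediateField.mem_fixedField_iff]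
    intro h hh
    obtain ⟨i, rfl⟩ := Subgroup.mem_zpowers_iff.1 hh
    have h1 : g ∈ MulAction.stabilizer (↥(k ⊔ M) ≃ₐ[ℚ] ↥(k ⊔ M)) x := hx
    exact (MulAction.stabilizer (↥(k ⊔ M) ≃ₐ[ℚ] ↥(k ⊔ M)) x).zpow_mem h1 i
  have hle : k ⊔ M ≤ IntermediateField.lift E := by
    refine sup_le ?_ ?_
    · intro y hy
      have hy' : y ∈ k ⊔ M := (le_sup_left : k ≤ k ⊔ M) hy
      refine (IntermediateField.mem_lift (⟨y, hy'⟩ : ↥(k ⊔ M))).2 (hE _ ?_)
      have h1 := AlgEquiv.restrictNormal_commutes g k ⟨y, hy⟩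
      have h2 : g.restrictNormal k ⟨y, hy⟩ = ⟨y, hy⟩ := by
        have := congrArg (fun f : k ≃ₐ[ℚ] k => f ⟨y, hy⟩) hg1
        exact this
      rw [h2] at h1
      exact h1.symm
    · intro y hy
      have hy' : y ∈ k ⊔ M := (le_sup_right : M ≤ k ⊔ M) hy
      refine (IntermediateField.mem_lift (⟨y, hy'⟩ : ↥(k ⊔ M))).2 (hE _ ?_)
      have h1 := AlgEquiv.restrictNormal_commutes g M ⟨y, hy⟩
      have h2 : g.restrictNormal M ⟨y, hy⟩ = ⟨y, hy⟩ := by
        have := congrArg (fun f : M ≃ₐ[ℚ] M => f ⟨y, hy⟩) hg2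
        exact this
      rw [h2] at h1
      exact h1.symm
  ext x
  have h1 : x ∈ E := (IntermediateField.mem_lift x).1 (hle x.2)
  rw [IntermediateField.mem_fixedField_iff] at h1
  exact congrArg Subtype.val (h1 g (Subgroup.mem_zpowers g))

/-- Composita of totally real fields. -/
theorem sup_real (k M : IntermediateField ℚ (AlgebraicClosure ℚ)) (hk : IsTotallyReal k)
    (hM : IsTotallyReal M) : IsTotallyReal ↥(k ⊔ M) := by
  have ha := H69.algQ
  have h1 : IsTotallyReal k.toSubfield := hk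
  have h2 : IsTotallyReal M.toSubfield := hM
  have h3 : IsTotallyReal ↥(k.toSubfield ⊔ M.toSubfield) := isTotallyReal_sup
  have h4 : (k ⊔ M).toSubfield = k.toSubfield ⊔ M.toSubfield := IntermediateField.sup_toSubfield k M
  rw [← h4] at h3
  exact h3

theorem leo_cyclic' (F : Type) [Field F] [NumberField F] [IsTotallyReal F] (inst : Algebra ℚ F)
    (hG : IsGalois ℚ F) (hcyc : IsCyclic (F ≃ₐ[ℚ] F)) (j : ℕ) (hd : finrank ℚ F = 2 * 3 ^ j) :
    LeopoldtAt F 3 := by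
  have h : inst = DivisionRing.toRatAlgebra := Subsingleton.elim _ _
  subst h
  obtain ⟨σ, hσ⟩ := hcyc
  refine leo_cyclic σ hσ fun e he => ?_
  rw [hd] at he
  exact irr_dvd j e he

theorem lay : LayStmt := by
  intro k hNk hk2 hkr M j hN hM hMj
  have hM0 : finrank ℚ M ≠ 0 := by rw [hMj]; positivity
  have hfM : FiniteDimensional ℚ M := FiniteDimensional.of_finrank_pos (Nat.pos_of_ne_zero hM0)
  have hfk : FiniteDimensional ℚ k := FiniteDimensional.of_finrank_pos (by rw [hk2]; norm_num)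
  have hNM : NumberField M := { to_charZero := inferInstance, to_finiteDimensional := hfM }
  obtain ⟨n, hn⟩ := le_cyQ M hM hM0
  obtain ⟨hMG, hMc⟩ := cyc_sub n M hn
  have hq : Algebra.IsQuadraticExtension ℚ k := { finrank_eq_two' := hk2 }
  have hkG : IsGalois ℚ k := inferInstance
  have hkc : IsCyclic (k ≃ₐ[ℚ] k) := inferInstance
  have hc : (finrank ℚ k).Coprime (finrank ℚ M) := by
    rw [hk2, hMj]
    exact Nat.Coprime.pow_right _ (by norm_num)
  obtain ⟨hFG, hFc⟩ := sup_cyclic k M hkc hMc hc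
  have hMr : IsTotallyReal M := by
    refine ⟨fun v => ?_⟩
    have hodd : Odd (finrank ℚ M) := by
      rw [hMj]
      exact Odd.pow (by decide)
    have := IsUnramifiedAtInfinitePlaces_of_odd_finrank (k := ℚ) (K := M) hodd
    have h4 := IsUnramifiedAtInfinitePlaces.isUnramified (k := ℚ) v
    rw [InfinitePlace.isUnramified_iff] at h4
    rcases h4 with h4 | h4
    · exact h4
    · exact absurd h4 (by
        rw [InfinitePlace.not_isComplex_iff_isReal]
        exact IsTotallyReal.isReal _)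
  have hFr : IsTotallyReal ↥(k ⊔ M) := sup_real k M hkr hMr
  have hd : finrank ℚ ↥(k ⊔ M) = 2 * 3 ^ j := by rw [H90.fr_sup hc, hk2, hMj]
  exact leo_cyclic' ↥(k ⊔ M) _ hFG hFc j hd

end Pool.Agent.LeoD.H48
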